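import Pool.Agent.MP_76d60e_lc.Local

set_option autoImplicit false

namespace Pool.Agent.MP_76d60e_lc

open Function

variable {V : Type} [DecidableEq V]

def sendList (w : V) : List Bool → Program V → Program V
  | [], k => k
  | b :: l, k => Program.send w b (sendList w l k)

def recvN (w : V) : ℕ → (List Bool → Program V) → Program V
  | 0, k => k []
  | m + 1, k => Program.receive w (recvN w m fun l => k (false :: l))
      (recvN w m fun l => k (true :: l))

omit [DecidableEq V] in
lemma follows_sendList (w : V) (l : List Bool) (k : Program V) (pat : List (Bool × V))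
    (h : Follows k pat) :
    Follows (sendList w l k) (List.replicate l.length (true, w) ++ pat) := by
  induction l with
  | nil => simpa [sendList] using h
  | cons b l ih => exact Follows.send _ _ _ _ ih

omit [DecidableEq V] in
lemma follows_recvN (w : V) (m : ℕ) (k : List Bool → Program V) (pat : List (Bool × V))
    (h : ∀ l, Follows (k l) pat) :
    Follows (recvN w m k) (List.replicate m (false, w) ++ pat) := by
  induction m generalizing k with
  | zero => simpa [recvN] using h []
  | succ m ih =>
    exact Follows.receive _ _ _ _ (ih _ fun l => h _) (ih _ fun l => h _)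

lemma run_transfer (G : SimpleGraph V) (u w : V) (huw : G.Adj u w) (l : List Bool) :
    ∀ (p : V → Program V) (ku : Program V) (kw : List Bool → Program V) (c : ℕ)
      (out : V → Bool), p u = sendList w l ku → p w = recvN u l.length kw →
      Run G (update (update p u ku) w (kw l)) (fun _ => []) c out →
      Run G p (fun _ => []) (c + l.length) out := by
  have hne : u ≠ w := huw.ne
  induction l with
  | nil =>
    intro p ku kw c out h1 h2 h3
    simp only [sendList] at h1
    simp only [List.length_nil, recvN] at h2
    rw [← h1, update_eq_self, ← h2, update_eq_self] at h3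
    simpa using h3
  | cons b l ih =>
    intro p ku kw c out h1 h2 h3
    simp only [sendList] at h1
    simp only [List.length_cons, recvN] at h2
    rw [List.length_cons, ← add_assoc]
    refine Run.send _ _ _ _ u w b _ h1 huw ?_
    refine Run.receive _ _ _ _ w u b [] _ _
      (by rw [update_of_ne hne.symm]; exact h2) (by simp) ?_
    have e1 : update (update (fun _ : V × V => ([] : List Bool)) (u, w) ([] ++ [b])) (u, w) [] =
        fun _ => [] := by
      rw [update_idem]; exact update_eq_self _ _
    rw [e1]
    refine ih _ ku (fun l => kw (b :: l)) c out ?_ ?_ ?_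
    · rw [update_of_ne hne, update_self]
    · rw [update_self]; cases b <;> rfl
    · convert h3 using 1
      funext v
      by_cases hv : v = w
      · subst hv; simp
      · by_cases hv' : v = u
        · subst hv'; simp [update_of_ne hv]
        · simp [update_of_ne hv, update_of_ne hv']

section
variable {X ι : Type} (lab : ι → X → List Bool) (len : ι → ℕ)

/-- The program of vertex `v` with input `x` and flag `f` for a list of steps
`(sender, receiver, label index)`. -/
def compile (v : V) (x : X) : List (V × V × ι) → Bool → Program V
  | [], f => Program.output f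
  | s :: rest, f =>
    if v = s.1 then sendList s.2.1 (f :: lab s.2.2 x) (compile v x rest f)
    else if v = s.2.1 then
      recvN s.1 (len s.2.2 + 1) fun l => compile v x rest (f && decide (l = true :: lab s.2.2 x))
    else compile v x rest f

def sim (x : V → X) : List (V × V × ι) → (V → Bool) → (V → Bool)
  | [], f => f
  | s :: rest, f => sim x rest (update f s.2.1
      (f s.2.1 && decide (f s.1 :: lab s.2.2 (x s.1) = true :: lab s.2.2 (x s.2.1))))

def pattern (v : V) : List (V × V × ι) → List (Bool × V)
  | [] => []
  | s :: rest =>
    if v = s.1 then List.replicate (len s.2.2 + 1) (true, s.2.1) ++ pattern v rest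
    else if v = s.2.1 then List.replicate (len s.2.2 + 1) (false, s.1) ++ pattern v rest
    else pattern v rest

lemma follows_compile (hlen : ∀ i x, (lab i x).length = len i) (v : V) (x : X)
    (steps : List (V × V × ι)) :
    ∀ f, Follows (compile lab len v x steps f) (pattern len v steps) := by
  induction steps with
  | nil => intro f; exact Follows.output f
  | cons s rest ih =>
    intro f
    simp only [compile, pattern]
    split_ifs with h1 h2
    · have := follows_sendList s.2.1 (f :: lab s.2.2 x) _ _ (ih f)
      simpa [hlen] using this
    · exact follows_recvN _ _ _ _ fun l => ih _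
    · exact ih f

lemma run_compile (G : SimpleGraph V) (hlen : ∀ i x, (lab i x).length = len i) (x : V → X)
    (steps : List (V × V × ι)) (hadj : ∀ s ∈ steps, G.Adj s.1 s.2.1) :
    ∀ f : V → Bool, Run G (fun v => compile lab len v (x v) steps (f v)) (fun _ => [])
      (steps.map fun s => len s.2.2 + 1).sum (sim lab x steps f) := by
  induction steps with
  | nil => intro f; exact Run.finish _ _
  | cons s rest ih =>
    intro f
    have ha : G.Adj s.1 s.2.1 := hadj s (by simp)
    have hne : s.2.1 ≠ s.1 := ha.ne.symm
    have ih' := ih (fun t ht => hadj t (by simp [ht])) (update f s.2.1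
      (f s.2.1 && decide (f s.1 :: lab s.2.2 (x s.1) = true :: lab s.2.2 (x s.2.1))))
    have hl : (f s.1 :: lab s.2.2 (x s.1)).length = len s.2.2 + 1 := by simp [hlen]
    simp only [List.map_cons, List.sum_cons, sim]
    rw [add_comm, ← hl]
    refine run_transfer G s.1 s.2.1 ha _ _ (compile lab len s.1 (x s.1) rest (f s.1))
      (fun l => compile lab len s.2.1 (x s.2.1) rest
        (f s.2.1 && decide (l = true :: lab s.2.2 (x s.2.1)))) _ _ ?_ ?_ ?_
    · simp [compile]
    · simp [compile, hne, hlen]
    · convert ih' using 1
      funext v
      by_cases hv : v = s.2.1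
      · subst hv; simp
      · by_cases hv' : v = s.1
        · subst hv'; simp [update_of_ne hv]
        · simp [compile, hv, hv']

lemma sim_complete (x : V → X) (hx : ∀ u w, x u = x w) (steps : List (V × V × ι)) :
    sim lab x steps (fun _ => true) = fun _ => true := by
  induction steps with
  | nil => rfl
  | cons s rest ih =>
    simp only [sim, hx s.1 s.2.1, decide_true, Bool.and_self]
    rw [update_eq_self, ih]

def know : List (V × V × ι) → (V → List (V × V × ι)) → (V → List (V × V × ι))
  | [], K => K
  | s :: rest, K => know rest (update K s.2.1 (s :: (K s.1 ++ K s.2.1)))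

lemma sim_sound (x : V → X) (steps : List (V × V × ι)) :
    ∀ (f : V → Bool) (K : V → List (V × V × ι)),
      (∀ v, f v = true → ∀ s ∈ K v, lab s.2.2 (x s.1) = lab s.2.2 (x s.2.1)) →
      ∀ v, sim lab x steps f v = true →
        ∀ s ∈ know steps K v, lab s.2.2 (x s.1) = lab s.2.2 (x s.2.1) := by
  induction steps with
  | nil => intro f K h; exact h
  | cons s rest ih =>
    intro f K h
    apply ih
    intro v hv t ht
    by_cases hvs : v = s.2.1
    · subst hvs
      simp only [update_self, Bool.and_eq_true, decide_eq_true_eq, List.cons.injEq] at hv
      simp only [update_self, List.mem_cons, List.mem_append] at ht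
      rcases ht with rfl | ht | ht
      · exact hv.2.2
      · exact h _ hv.2.1 t ht
      · exact h _ hv.1 t ht
    · rw [update_of_ne hvs] at hv ht
      exact h v hv t ht

end

/-- A sound labelling scheme gives a static protocol in which everybody learns the answer. -/
lemma exists_protocol [Fintype V] {ι : Type} (G : SimpleGraph V) (n : ℕ)
    (lab : ι → (Fin n → Bool) → List Bool) (len : ι → ℕ)
    (hlen : ∀ i x, (lab i x).length = len i) (steps core : List (V × V × ι))
    (hadj : ∀ s ∈ steps, G.Adj s.1 s.2.1)
    (hK : ∀ v, ∀ s ∈ core, s ∈ know steps (fun _ => []) v)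
    (hsound : ∀ x : V → Fin n → Bool,
      (∀ s ∈ core, lab s.2.2 (x s.1) = lab s.2.2 (x s.2.1)) → ∀ u w, x u = x w) :
    ∃ P : V → (Fin n → Bool) → Program V,
      (∃ pat : V → List (Bool × V), ∀ v s, Follows (P v s) (pat v)) ∧
      ∀ x : V → Fin n → Bool,
        (∃ c out, Run G (fun v => P v (x v)) (fun _ => []) c out) ∧
        ∀ c out, Run G (fun v => P v (x v)) (fun _ => []) c out →
          c ≤ (steps.map fun s => len s.2.2 + 1).sum ∧
          ∀ v, (out v = true ↔ ∀ u w, x u = x w) := by
  refine ⟨fun v s => compile lab len v s steps true,
    ⟨fun v => pattern len v steps, fun v s => follows_compile lab len hlen v s steps true⟩, ?_⟩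
  intro x
  have hr := run_compile lab len G hlen x steps hadj (fun _ => true)
  refine ⟨⟨_, _, hr⟩, fun c out h => ?_⟩
  obtain ⟨h1, h2⟩ := run_det hr h
  refine ⟨h1.le, fun v => ⟨fun hv => ?_, fun hx => ?_⟩⟩
  · apply hsound
    intro s hs
    exact sim_sound lab x steps (fun _ => true) (fun _ => []) (by simp) v (h2 ▸ hv) s (hK v s hs)
  · rw [h2, sim_complete lab x hx]

end Pool.Agent.MP_76d60e_lc
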