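import Mathlib

set_option autoImplicit false

namespace Pool.Agent.MP_76d60e_lc

/-- The deterministic program of one player (a finite decision tree): stop with an answer,
send a bit to a vertex and go on, or wait for the next bit from a vertex and branch on it. -/
inductive Program (V : Type) : Type
  | output (answer : Bool) : Program V
  | send (target : V) (bit : Bool) (next : Program V) : Program V
  | receive (source : V) (ifFalse ifTrue : Program V) : Program V

/-- `Run G p q c out`: when vertex `v` still has to run `p v` and `q (u, w)` is the queue of bits
sent by `u` to `w` and not yet read, the players run until all have stopped, sending `c` more bits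
in total, each along an edge of `G`, and vertex `v` answers `out v`. -/
inductive Run {V : Type} [DecidableEq V] (G : SimpleGraph V) :
    (V → Program V) → (V × V → List Bool) → ℕ → (V → Bool) → Prop
  | finish (q : V × V → List Bool) (out : V → Bool) :
      Run G (fun v => Program.output (out v)) q 0 out
  | send (p : V → Program V) (q : V × V → List Bool) (c : ℕ) (out : V → Bool)
      (u w : V) (b : Bool) (k : Program V) :
      p u = Program.send w b k → G.Adj u w →
      Run G (Function.update p u k) (Function.update q (u, w) (q (u, w) ++ [b])) c out →
      Run G p q (c + 1) out
  | receive (p : V → Program V) (q : V × V → List Bool) (c : ℕ) (out : V → Bool)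
      (u w : V) (b : Bool) (rest : List Bool) (k₀ k₁ : Program V) :
      p u = Program.receive w k₀ k₁ → q (w, u) = b :: rest →
      Run G (Function.update p u (if b then k₁ else k₀)) (Function.update q (w, u) rest) c out →
      Run G p q c out

/-- Every branch of the program performs exactly the listed actions:
`(true, w)` is a send to `w`, `(false, w)` is a receive from `w`. -/
inductive Follows {V : Type} : Program V → List (Bool × V) → Prop
  | output (b : Bool) : Follows (Program.output b) []
  | send (w : V) (b : Bool) (k : Program V) (l : List (Bool × V)) :
      Follows k l → Follows (Program.send w b k) ((true, w) :: l)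
  | receive (w : V) (k₀ k₁ : Program V) (l : List (Bool × V)) :
      Follows k₀ l → Follows k₁ l → Follows (Program.receive w k₀ k₁) ((false, w) :: l)

/-- `f(n, G)`: the least worst-case total number of bits of a protocol deciding equality of the
`n`-bit inputs.  If `static`, only protocols with a communication pattern fixed in advance are
allowed.  If `allKnow`, every player must give the right answer; otherwise the verdict is
that all players accept. -/
noncomputable def minBits {V : Type} [DecidableEq V] (G : SimpleGraph V) (static allKnow : Bool)
    (n : ℕ) : ℕ :=
  sInf {cost : ℕ | ∃ P : V → (Fin n → Bool) → Program V,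
    (static = true → ∃ pattern : V → List (Bool × V), ∀ v s, Follows (P v s) (pattern v)) ∧
    ∀ x : V → Fin n → Bool,
      (∃ c out, Run G (fun v => P v (x v)) (fun _ => []) c out) ∧
      ∀ c out, Run G (fun v => P v (x v)) (fun _ => []) c out →
        c ≤ cost ∧
        if allKnow then ∀ v, (out v = true ↔ ∀ u w, x u = x w)
        else ((∀ v, out v = true) ↔ ∀ u w, x u = x w)}

/-- The Petersen graph: outer 5-cycle, spokes, inner pentagram. -/
def petersen : SimpleGraph (Fin 10) :=
  SimpleGraph.fromRel fun a b => (a, b) ∈
    [(0, 1), (1, 2), (2, 3), (3, 4), (4, 0), (0, 5), (1, 6), (2, 7), (3, 8), (4, 9),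
      (5, 7), (7, 9), (9, 6), (6, 8), (8, 5)]

end Pool.Agent.MP_76d60e_lc
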