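import Pool.Agent.MP_76d60e_lc.Compile

set_option autoImplicit false

namespace Pool.Agent.MP_76d60e_lc

def core : List (Fin 10 × Fin 10 × Option (Fin 15)) :=
  [(0, 1, some 0), (1, 2, some 1), (2, 3, some 2), (3, 4, some 3), (0, 4, some 4), (0, 5, some 5),
    (1, 6, some 6), (2, 7, some 7), (3, 8, some 8), (4, 9, some 9), (5, 7, some 10),
    (7, 9, some 11), (9, 6, some 12), (6, 8, some 13), (8, 5, some 14)]

def flood : List (Fin 10 × Fin 10 × Option (Fin 15)) :=
  [(2, 1, none), (6, 1, none), (3, 4, none), (9, 4, none), (7, 5, none), (8, 5, none),
    (1, 0, none), (4, 0, none), (5, 0, none), (0, 1, none), (0, 4, none), (0, 5, none),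
    (1, 2, none), (1, 6, none), (4, 3, none), (4, 9, none), (5, 7, none), (5, 8, none)]

instance petersenDec : DecidableRel petersen.Adj := by
  unfold petersen
  infer_instance

lemma steps_adj : ∀ s ∈ core ++ flood, petersen.Adj s.1 s.2.1 := by decide +kernel

lemma steps_know0 :
    (core.all fun s => (know (core ++ flood) (fun _ => []) 0).contains s) = true := by
  decide +kernel

lemma steps_know1 :
    (core.all fun s => (know (core ++ flood) (fun _ => []) 1).contains s) = true := by
  decide +kernel

lemma steps_know2 :
    (core.all fun s => (know (core ++ flood) (fun _ => []) 2).contains s) = true := by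
  decide +kernel

lemma steps_know3 :
    (core.all fun s => (know (core ++ flood) (fun _ => []) 3).contains s) = true := by
  decide +kernel

lemma steps_know4 :
    (core.all fun s => (know (core ++ flood) (fun _ => []) 4).contains s) = true := by
  decide +kernel

lemma steps_know5 :
    (core.all fun s => (know (core ++ flood) (fun _ => []) 5).contains s) = true := by
  decide +kernel

lemma steps_know6 :
    (core.all fun s => (know (core ++ flood) (fun _ => []) 6).contains s) = true := by
  decide +kernel

lemma steps_know7 :
    (core.all fun s => (know (core ++ flood) (fun _ => []) 7).contains s) = true := by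
  decide +kernel

lemma steps_know8 :
    (core.all fun s => (know (core ++ flood) (fun _ => []) 8).contains s) = true := by
  decide +kernel

lemma steps_know9 :
    (core.all fun s => (know (core ++ flood) (fun _ => []) 9).contains s) = true := by
  decide +kernel

lemma steps_know : ∀ v, ∀ s ∈ core, s ∈ know (core ++ flood) (fun _ => []) v := by
  have h : ∀ v, (core.all fun s => (know (core ++ flood) (fun _ => []) v).contains s) = true := by
    intro v
    fin_cases v
    exacts [steps_know0, steps_know1, steps_know2, steps_know3, steps_know4, steps_know5,
      steps_know6, steps_know7, steps_know8, steps_know9]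
  intro v s hs
  exact List.mem_of_elem_eq_true (List.all_eq_true.1 (h v) s hs)

end Pool.Agent.MP_76d60e_lc
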