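import Pool.Agent.MP_76d60e_lc.Rigid
import Pool.Agent.MP_76d60e_lc.Steps

set_option autoImplicit false

namespace Pool.Agent.MP_76d60e_lc

open Function

lemma exists_enc (s : ℕ) : ∃ enc : (Fin s → ℤ) → List Bool,
    (∀ y, (enc y).length = s * (s + 4)) ∧
    ∀ y y', (∀ j, |y j| < 8 * 2 ^ s) → (∀ j, |y' j| < 8 * 2 ^ s) → enc y = enc y' → y = y' := by
  have hc : Fintype.card (Fin s → Fin (2 ^ (s + 4))) ≤ Fintype.card (Fin (s * (s + 4)) → Bool) := by
    simp only [Fintype.card_pi, Fintype.card_fin, Finset.prod_const, Finset.card_univ,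
      Fintype.card_bool]
    rw [← pow_mul, mul_comm]
  obtain ⟨ψ⟩ := Function.Embedding.nonempty_of_card_le hc
  refine ⟨fun y => List.ofFn (ψ fun j => Fin.ofNat _ (y j + 8 * 2 ^ s).toNat), by simp, ?_⟩
  intro y y' hy hy' h
  have h1 := ψ.injective (List.ofFn_injective h)
  funext j
  have h2 := congrArg Fin.val (congrFun h1 j)
  simp only [Fin.val_ofNat] at h2
  have h3 := abs_lt.1 (hy j)
  have h4 := abs_lt.1 (hy' j)
  have h5 : ((2 ^ (s + 4) : ℕ) : ℤ) = 16 * 2 ^ s := by push_cast; ring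
  rw [Nat.mod_eq_of_lt (by omega), Nat.mod_eq_of_lt (by omega)] at h2
  omega

lemma exists_sphere (n s : ℕ) (h : n + 27 * s + 9 ≤ 3 * s * s) :
    ∃ (φ : (Fin n → Bool) → Fin s → Fin 3 → Fin (2 ^ s)) (C : Fin 3 → Fin 3 → ℕ),
      Injective φ ∧ ∀ x a b, ∑ j, (φ x j a : ℕ) * (φ x j b : ℕ) = C a b := by
  classical
  let g : (Fin s → Fin 3 → Fin (2 ^ s)) → Fin 3 → Fin 3 → ℕ :=
    fun z a b => ∑ j, (z j a : ℕ) * (z j b : ℕ)
  let t : Finset (Fin 3 → Fin 3 → ℕ) :=
    Fintype.piFinset fun _ => Fintype.piFinset fun _ => Finset.range (2 ^ (3 * s + 1))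
  have hmaps : ∀ z ∈ (Finset.univ : Finset (Fin s → Fin 3 → Fin (2 ^ s))), g z ∈ t := by
    intro z _
    simp only [t, Fintype.mem_piFinset, Finset.mem_range]
    intro a b
    have h1 : g z a b ≤ ∑ _j : Fin s, 2 ^ s * 2 ^ s :=
      Finset.sum_le_sum fun j _ => Nat.mul_le_mul (z j a).2.le (z j b).2.le
    simp only [Finset.sum_const, Finset.card_univ, Fintype.card_fin, smul_eq_mul] at h1
    have h2 : s < 2 ^ s := Nat.lt_two_pow_self
    have h3 : 2 ^ (3 * s + 1) = 2 * (2 ^ s * (2 ^ s * 2 ^ s)) := by ring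
    have h4 : s * (2 ^ s * 2 ^ s) ≤ 2 ^ s * (2 ^ s * 2 ^ s) := Nat.mul_le_mul_right _ h2.le
    have h5 : 0 < 2 ^ s * (2 ^ s * 2 ^ s) := by positivity
    omega
  have hne : t.Nonempty := ⟨_, hmaps (fun _ _ => ⟨0, by positivity⟩) (Finset.mem_univ _)⟩
  have hcard : t.card * 2 ^ n ≤ (Finset.univ : Finset (Fin s → Fin 3 → Fin (2 ^ s))).card := by
    simp only [t, Fintype.card_piFinset, Finset.card_range, Finset.prod_const, Finset.card_univ,
      Fintype.card_fin, Fintype.card_pi]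
    simp only [← pow_mul, ← pow_add]
    apply Nat.pow_le_pow_right (by norm_num)
    nlinarith
  obtain ⟨C, -, hC⟩ := Finset.exists_le_card_fiber_of_mul_le_card_of_maps_to hmaps hne hcard
  have hc : Fintype.card (Fin n → Bool) ≤
      Fintype.card (Finset.univ.filter fun z => g z = C) := by
    rw [Fintype.card_coe]
    simpa using hC
  obtain ⟨φ⟩ := Function.Embedding.nonempty_of_card_le hc
  refine ⟨fun x => (φ x).1, C, fun x y hxy => φ.injective (Subtype.ext hxy), fun x a b => ?_⟩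
  have := (Finset.mem_filter.1 (φ x).2).2
  exact congrFun (congrFun this a) b

def Uvec : Fin 15 → ℤ × ℤ × ℤ :=
  ![(1, 0, 0), (-2, -1, 0), (-1, 0, 1), (2, 1, 2), (0, 1, 0), (0, 0, 1), (-2, -1, -1),
    (-1, -1, 1), (0, 1, 2), (-1, 2, -2), (-1, 1, -2), (0, -2, 2), (0, -2, 1), (-2, -1, -2),
    (2, -1, 2)]

lemma Uvec_bound : ∀ e, |(Uvec e).1| ≤ 2 ∧ |(Uvec e).2.1| ≤ 2 ∧ |(Uvec e).2.2| ≤ 2 := by
  decide

lemma upper_protocol (n s : ℕ) (h : n + 27 * s + 9 ≤ 3 * s * s) :
    ∃ P : Fin 10 → (Fin n → Bool) → Program (Fin 10),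
      (∃ pat : Fin 10 → List (Bool × Fin 10), ∀ v s, Follows (P v s) (pat v)) ∧
      ∀ x : Fin 10 → Fin n → Bool,
        (∃ c out, Run petersen (fun v => P v (x v)) (fun _ => []) c out) ∧
        ∀ c out, Run petersen (fun v => P v (x v)) (fun _ => []) c out →
          c ≤ 15 * (s * (s + 4)) + 33 ∧
          ∀ v, (out v = true ↔ ∀ u w, x u = x w) := by
  obtain ⟨enc, henc, hinj⟩ := exists_enc s
  obtain ⟨φ, C, hφ, hC⟩ := exists_sphere n s h
  let val : Fin 15 → (Fin n → Bool) → Fin s → ℤ := fun e x j =>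
    (Uvec e).1 * (φ x j 0 : ℕ) + (Uvec e).2.1 * (φ x j 1 : ℕ) + (Uvec e).2.2 * (φ x j 2 : ℕ)
  have hval : ∀ e x j, |val e x j| < 8 * 2 ^ s := by
    intro e x j
    obtain ⟨b1, b2, b3⟩ := Uvec_bound e
    have c : ∀ a, |((φ x j a : ℕ) : ℤ)| ≤ 2 ^ s := by
      intro a
      rw [abs_of_nonneg (by positivity)]
      exact_mod_cast (φ x j a).2.le
    have hp : (0 : ℤ) < 2 ^ s := by positivity
    have d : ∀ (u : ℤ) a, |u| ≤ 2 → |u * ((φ x j a : ℕ) : ℤ)| ≤ 2 * 2 ^ s := by
      intro u a hu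
      rw [abs_mul]
      exact mul_le_mul hu (c a) (abs_nonneg _) (by norm_num)
    have d1 := abs_le.1 (d _ 0 b1)
    have d2 := abs_le.1 (d _ 1 b2)
    have d3 := abs_le.1 (d _ 2 b3)
    rw [abs_lt]
    simp only [val]
    constructor <;> linarith
  let lab : Option (Fin 15) → (Fin n → Bool) → List Bool := fun i x =>
    match i with
    | none => []
    | some e => enc (val e x)
  let len : Option (Fin 15) → ℕ := fun i =>
    match i with
    | none => 0
    | some _ => s * (s + 4)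
  have hlen : ∀ i x, (lab i x).length = len i := by
    rintro (_ | e) x
    · rfl
    · exact henc _
  have hsum : ((core ++ flood).map fun t => len t.2.2 + 1).sum = 15 * (s * (s + 4)) + 33 := by
    simp [core, flood, len]
    ring
  rw [← hsum]
  refine exists_protocol petersen n lab len hlen (core ++ flood) core steps_adj steps_know ?_
  intro x hx
  let z : Fin 10 → Fin s → Fin 3 → ℚ := fun v j a => ((φ (x v) j a : ℕ) : ℚ)
  have key : ∀ (e : Fin 15) (a b : Fin 10), (a, b, some e) ∈ core → ∀ j,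
      ((Uvec e).1 : ℚ) * z a j 0 + (Uvec e).2.1 * z a j 1 + (Uvec e).2.2 * z a j 2 =
      ((Uvec e).1 : ℚ) * z b j 0 + (Uvec e).2.1 * z b j 1 + (Uvec e).2.2 * z b j 2 := by
    intro e a b hm j
    have h1 := congrFun (hinj _ _ (hval e (x a)) (hval e (x b)) (hx _ hm)) j
    simp only [val] at h1
    simp only [z]
    exact_mod_cast h1
  have hco : ∀ j, 0 ≤ Qtot (fun v => z v j) ∧
      (Qtot (fun v => z v j) = 0 → ∀ v, z v j = z 0 j) := by
    intro j
    apply coord (fun v => z v j)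
    · simpa [Uvec] using key 0 0 1 (by decide) j
    · simpa [Uvec] using key 1 1 2 (by decide) j
    · simpa [Uvec] using key 2 2 3 (by decide) j
    · simpa [Uvec] using key 3 3 4 (by decide) j
    · simpa [Uvec] using key 4 0 4 (by decide) j
    · simpa [Uvec] using key 5 0 5 (by decide) j
    · simpa [Uvec] using key 6 1 6 (by decide) j
    · simpa [Uvec] using key 7 2 7 (by decide) j
    · simpa [Uvec] using key 8 3 8 (by decide) j
    · simpa [Uvec] using key 9 4 9 (by decide) j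
    · simpa [Uvec] using key 10 5 7 (by decide) j
    · simpa [Uvec] using key 11 7 9 (by decide) j
    · simpa [Uvec] using key 12 9 6 (by decide) j
    · simpa [Uvec] using key 13 6 8 (by decide) j
    · simpa [Uvec] using key 14 8 5 (by decide) j
  have hs := sum_Qtot z (fun a b => (C a b : ℚ)) (by
    intro v a b
    simp only [z]
    exact_mod_cast hC (x v) a b)
  have hz := (Finset.sum_eq_zero_iff_of_nonneg fun j _ => (hco j).1).1 hs
  have h0 : ∀ v, x v = x 0 := by
    intro v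
    apply hφ
    funext j a
    have := congrFun ((hco j).2 (hz j (Finset.mem_univ j)) v) a
    simp only [z, Nat.cast_inj] at this
    exact Fin.ext this
  intro u w
  rw [h0 u, h0 w]

end Pool.Agent.MP_76d60e_lc
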