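import Pool.Agent.MP_76d60e_lc.Defs

set_option autoImplicit false

namespace Pool.Agent.MP_76d60e_lc

open Function

variable {V : Type} [DecidableEq V]

/-- Fed with the streams `r`, the program stops with answer `o` after sending exactly `s`. -/
def Local : Program V → (V → List Bool) → (V → List Bool) → Bool → Prop
  | Program.output b, _, s, o => o = b ∧ ∀ w, s w = []
  | Program.send w b k, r, s, o => ∃ rest, s w = b :: rest ∧ Local k r (update s w rest) o
  | Program.receive w k₀ k₁, r, s, o => ∃ rest,
      (r w = false :: rest ∧ Local k₀ (update r w rest) s o) ∨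
      (r w = true :: rest ∧ Local k₁ (update r w rest) s o)

/-- Consistency of a configuration with the remaining transcript `R`. -/
def Cons (p : V → Program V) (q R : V × V → List Bool) (out : V → Bool) : Prop :=
  ∀ u, Local (p u) (fun w => q (w, u) ++ R (w, u)) (fun w => R (u, w)) (out u)

lemma send_in (q R : V × V → List Bool) (u w : V) (b : Bool) (rest : List Bool)
    (h : R (u, w) = b :: rest) (e : V × V) :
    update q (u, w) (q (u, w) ++ [b]) e ++ update R (u, w) rest e = q e ++ R e := by
  by_cases he : e = (u, w)
  · subst he; simp [h]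
  · simp [update_of_ne he]

lemma send_out_self (R : V × V → List Bool) (u w : V) (rest : List Bool) :
    (fun a => update R (u, w) rest (u, a)) = update (fun a => R (u, a)) w rest := by
  funext a
  by_cases ha : a = w
  · subst ha; simp
  · have : (u, a) ≠ (u, w) := by simp [ha]
    simp [update_of_ne this, update_of_ne ha]

lemma send_out_other (R : V × V → List Bool) (u w v : V) (hv : v ≠ u) (rest : List Bool) :
    (fun a => update R (u, w) rest (v, a)) = fun a => R (v, a) := by
  funext a
  have : (v, a) ≠ (u, w) := by simp [hv]
  simp [update_of_ne this]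

lemma recv_in_self (q R : V × V → List Bool) (u w : V) (rest : List Bool) :
    (fun a => update q (w, u) rest (a, u) ++ R (a, u)) =
      update (fun a => q (a, u) ++ R (a, u)) w (rest ++ R (w, u)) := by
  funext a
  by_cases ha : a = w
  · subst ha; simp
  · have : (a, u) ≠ (w, u) := by simp [ha]
    simp [update_of_ne this, update_of_ne ha]

lemma recv_in_other (q R : V × V → List Bool) (u w v : V) (hv : v ≠ u) (rest : List Bool) :
    (fun a => update q (w, u) rest (a, v) ++ R (a, v)) = fun a => q (a, v) ++ R (a, v) := by
  funext a
  have : (a, v) ≠ (w, u) := by simp [hv]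
  simp [update_of_ne this]

lemma cons_send_iff (p : V → Program V) (q R : V × V → List Bool) (out : V → Bool)
    (u w : V) (b : Bool) (k : Program V) (hp : p u = Program.send w b k) (rest : List Bool)
    (h : R (u, w) = b :: rest) :
    Cons (update p u k) (update q (u, w) (q (u, w) ++ [b])) (update R (u, w) rest) out ↔
      Cons p q R out := by
  unfold Cons
  refine forall_congr' fun v => ?_
  simp only [send_in q R u w b rest h]
  by_cases hv : v = u
  · subst hv
    rw [send_out_self, update_self, hp]
    simp only [Local, h, List.cons.injEq, true_and, exists_eq_left']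
  · rw [send_out_other R u w v hv, update_of_ne hv]

lemma cons_recv_iff (p : V → Program V) (q R : V × V → List Bool) (out : V → Bool)
    (u w : V) (b : Bool) (rest : List Bool) (k₀ k₁ : Program V)
    (hp : p u = Program.receive w k₀ k₁) (h : q (w, u) = b :: rest) :
    Cons (update p u (if b then k₁ else k₀)) (update q (w, u) rest) R out ↔ Cons p q R out := by
  unfold Cons
  refine forall_congr' fun v => ?_
  by_cases hv : v = u
  · subst hv
    rw [recv_in_self, update_self, hp]
    cases b <;> simp [Local, h]
  · rw [recv_in_other q R u w v hv, update_of_ne hv]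

lemma sum_len_update [Fintype V] (R : V × V → List Bool) (e : V × V) (b : Bool)
    (rest : List Bool) (h : R e = b :: rest) :
    ∑ a, (R a).length = ∑ a, (update R e rest a).length + 1 := by
  have h1 : ∀ a, (R a).length = (update R e rest a).length + if a = e then 1 else 0 := by
    intro a
    by_cases ha : a = e
    · subst ha; simp [h]
    · simp [ha]
  rw [Finset.sum_congr rfl fun a _ => h1 a, Finset.sum_add_distrib]
  simp

lemma run_transcript [Fintype V] {G : SimpleGraph V} {p : V → Program V}
    {q : V × V → List Bool} {c : ℕ} {out : V → Bool} (h : Run G p q c out) :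
    ∃ R : V × V → List Bool, Cons p q R out ∧ ∑ a, (R a).length = c := by
  induction h with
  | finish q out => exact ⟨fun _ => [], fun u => by simp [Local], by simp⟩
  | send p q c out u w b k hp _ _ ih =>
    obtain ⟨R, hR, hc⟩ := ih
    have h1 : update R (u, w) (b :: R (u, w)) (u, w) = b :: R (u, w) := by simp
    refine ⟨update R (u, w) (b :: R (u, w)), ?_, ?_⟩
    · rw [← cons_send_iff p q _ out u w b k hp _ h1]
      simpa using hR
    · rw [sum_len_update _ _ _ _ h1]
      simp [hc]
  | receive p q c out u w b rest k₀ k₁ hp hq _ ih =>
    obtain ⟨R, hR, hc⟩ := ih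
    exact ⟨R, (cons_recv_iff p q R out u w b rest k₀ k₁ hp hq).1 hR, hc⟩

lemma run_unique [Fintype V] {G : SimpleGraph V} {p : V → Program V}
    {q : V × V → List Bool} {c : ℕ} {out : V → Bool} (h : Run G p q c out) :
    ∀ (R : V × V → List Bool) (out' : V → Bool), Cons p q R out' →
      out' = out ∧ ∑ a, (R a).length = c := by
  induction h with
  | finish q out =>
    intro R out' hR
    refine ⟨funext fun u => (hR u).1, ?_⟩
    have : ∀ a, R a = [] := fun a => (hR a.1).2 a.2
    simp [this]
  | send p q c out u w b k hp _ _ ih =>
    intro R out' hR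
    have h0 := hR u
    rw [hp] at h0
    obtain ⟨rest, h1, -⟩ := h0
    obtain ⟨h2, h3⟩ := ih _ out' ((cons_send_iff p q R out' u w b k hp rest h1).2 hR)
    exact ⟨h2, by rw [sum_len_update _ _ _ _ h1, h3]⟩
  | receive p q c out u w b rest k₀ k₁ hp hq _ ih =>
    intro R out' hR
    exact ih R out' ((cons_recv_iff p q R out' u w b rest k₀ k₁ hp hq).2 hR)

lemma run_det [Fintype V] {G : SimpleGraph V} {p : V → Program V}
    {q : V × V → List Bool} {c c' : ℕ} {out out' : V → Bool} (h : Run G p q c out)
    (h' : Run G p q c' out') : c' = c ∧ out' = out := by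
  obtain ⟨R, hR, hc⟩ := run_transcript h'
  obtain ⟨h1, h2⟩ := run_unique h R out' hR
  exact ⟨hc ▸ h2, h1⟩

end Pool.Agent.MP_76d60e_lc
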