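import Pool.Agent.MP_76d60e_lc.Local

set_option autoImplicit false

namespace Pool.Agent.MP_76d60e_lc

open Function

/-- Counting families of bit strings of bounded total length. -/
lemma card_le_of_short {α ι : Type} [Fintype ι] [DecidableEq ι] (s : Finset α)
    (F : α → ι → List Bool) (m : ℕ) (hinj : Set.InjOn F s)
    (hlen : ∀ a ∈ s, ∑ i, (F a i).length ≤ m) :
    s.card ≤ (m + 1) ^ Fintype.card ι * 2 ^ m := by
  classical
  let L : α → List (List Bool) := fun a => (Finset.univ : Finset ι).toList.map (F a)
  have hL : ∀ a, (L a).flatten.length = ∑ i, (F a i).length := by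
    intro a
    simp only [L, List.length_flatten, List.map_map]
    rw [Finset.sum_map_toList]
    rfl
  let g : α → (ι → ℕ) × (Fin m → Bool) :=
    fun a => (fun i => (F a i).length, fun j => (L a).flatten.getD j false)
  let t : Finset ((ι → ℕ) × (Fin m → Bool)) :=
    (Fintype.piFinset fun _ => Finset.range (m + 1)) ×ˢ Finset.univ
  have ht : t.card = (m + 1) ^ Fintype.card ι * 2 ^ m := by
    simp [t, Finset.card_product, Fintype.card_piFinset]
  rw [← ht]
  apply Finset.card_le_card_of_injOn g
  · intro a ha
    simp only [t, g, Finset.coe_product, Set.mem_prod, Finset.mem_coe, Fintype.mem_piFinset,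
      Finset.mem_range, Finset.mem_univ, and_true]
    intro i
    have h1 := hlen a ha
    have h2 : (F a i).length ≤ ∑ i, (F a i).length :=
      Finset.single_le_sum (f := fun i => (F a i).length) (fun _ _ => Nat.zero_le _)
        (Finset.mem_univ i)
    omega
  · intro a ha b hb hab
    simp only [g, Prod.mk.injEq] at hab
    obtain ⟨h1, h2⟩ := hab
    have h1' : ∀ i, (F a i).length = (F b i).length := fun i => congrFun h1 i
    have h3 : (L a).flatten.length = (L b).flatten.length := by
      rw [hL, hL]; exact Finset.sum_congr rfl fun i _ => h1' i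
    have h4 : (L a).flatten = (L b).flatten := by
      apply List.ext_getElem h3
      intro j hj1 hj2
      have hjm : j < m := by
        have := hlen a ha
        rw [← hL] at this
        omega
      have := congrFun h2 ⟨j, hjm⟩
      simpa [List.getD_eq_getElem?_getD, List.getElem?_eq_getElem hj1,
        List.getElem?_eq_getElem hj2, -List.length_flatten] using this
    have h5 : L a = L b := by
      rw [List.eq_iff_flatten_eq]
      refine ⟨h4, ?_⟩
      simp only [L, List.map_map]
      exact List.map_congr_left fun i _ => h1' i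
    apply hinj ha hb
    funext i
    have := List.map_inj_left.1 h5 i (by simp)
    exact this

variable {V : Type} [DecidableEq V] [Fintype V]

/-- The cut-and-paste lower bound at single-vertex cuts. -/
lemma lower_bound [Nontrivial V] (G : SimpleGraph V) (n cost m : ℕ)
    (P : V → (Fin n → Bool) → Program V)
    (hP : ∀ x : V → Fin n → Bool,
      (∃ c out, Run G (fun v => P v (x v)) (fun _ => []) c out) ∧
      ∀ c out, Run G (fun v => P v (x v)) (fun _ => []) c out →
        c ≤ cost ∧ ((∀ v, out v = true) ↔ ∀ u w, x u = x w))
    (hm : Fintype.card V * ((m + 1) ^ (2 * Fintype.card V) * 2 ^ m) < 2 ^ n) :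
    Fintype.card V * (m + 1) ≤ 2 * cost := by
  classical
  have h1 : ∀ s : Fin n → Bool, ∃ R : V × V → List Bool,
      Cons (fun v => P v s) (fun _ => []) R (fun _ => true) ∧ ∑ a, (R a).length ≤ cost := by
    intro s
    obtain ⟨⟨c, out, hr⟩, h2⟩ := hP (fun _ => s)
    obtain ⟨h3, h4⟩ := h2 c out hr
    have h5 : out = fun _ => true := funext (h4.2 fun _ _ => rfl)
    obtain ⟨R, hR, hc⟩ := run_transcript hr
    exact ⟨R, h5 ▸ hR, hc ▸ h3⟩
  choose R hR hc using h1
  let F : V → (Fin n → Bool) → (V ⊕ V) → List Bool :=
    fun v s => Sum.elim (fun w => R s (v, w)) (fun w => R s (w, v))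
  have hinj : ∀ v, Injective (F v) := by
    intro v s t hst
    have e1 : ∀ w, R s (v, w) = R t (v, w) := fun w => congrFun hst (Sum.inl w)
    have e2 : ∀ w, R s (w, v) = R t (w, v) := fun w => congrFun hst (Sum.inr w)
    obtain ⟨⟨c, out, hr⟩, h2⟩ := hP (update (fun _ => t) v s)
    have h3 : Cons (fun u => P u (update (fun _ => t) v s u)) (fun _ => []) (R t)
        (fun _ => true) := by
      intro u
      by_cases hu : u = v
      · subst hu
        have := hR s u
        simpa [e1, e2] using this
      · have := hR t u
        simpa [update_of_ne hu] using this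
    have h4 := (run_unique hr _ _ h3).1
    have h5 := (h2 c out hr).2.1 (fun u => by rw [← h4])
    obtain ⟨u, hu⟩ := exists_ne v
    have := h5 v u
    simpa [update_of_ne hu] using this
  let a : V → (Fin n → Bool) → ℕ := fun v s => ∑ i, (F v s i).length
  have hbad : ∀ v, (Finset.univ.filter fun s => a v s ≤ m).card ≤
      (m + 1) ^ (2 * Fintype.card V) * 2 ^ m := by
    intro v
    have := card_le_of_short (Finset.univ.filter fun s => a v s ≤ m) (F v) m
      (hinj v).injOn (fun s hs => (Finset.mem_filter.1 hs).2)
    simpa [two_mul] using this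
  have hex : ∃ s, ∀ v, m < a v s := by
    by_contra hcon
    push Not at hcon
    have hsub : (Finset.univ : Finset (Fin n → Bool)) ⊆
        Finset.univ.biUnion fun v => Finset.univ.filter fun s => a v s ≤ m := by
      intro s _
      obtain ⟨v, hv⟩ := hcon s
      simp only [Finset.mem_biUnion, Finset.mem_univ, true_and, Finset.mem_filter]
      exact ⟨v, hv⟩
    have h6 := Finset.card_le_card hsub
    have h7 := Finset.card_biUnion_le_card_mul (Finset.univ : Finset V)
      (fun v => Finset.univ.filter fun s => a v s ≤ m) _ (fun v _ => hbad v)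
    simp only [Finset.card_univ, Fintype.card_pi, Fintype.card_bool, Finset.prod_const,
      Fintype.card_fin] at h6 h7
    omega
  obtain ⟨s, hs⟩ := hex
  have h8 : ∑ v, a v s = 2 * ∑ e, (R s e).length := by
    simp only [a, F, Fintype.sum_sum_type, Sum.elim_inl, Sum.elim_inr, Finset.sum_add_distrib]
    rw [Fintype.sum_prod_type, two_mul]
    congr 1
    exact Finset.sum_comm
  have h9 : Fintype.card V * (m + 1) ≤ ∑ v, a v s := by
    have := Finset.card_nsmul_le_sum Finset.univ (fun v => a v s) (m + 1) (fun v _ => hs v)
    simpa using this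
  have := hc s
  omega

end Pool.Agent.MP_76d60e_lc
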