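import Pool.Agent.MP_76d60e_lc.Steps

set_option autoImplicit false

namespace Pool.Agent.MP_76d60e_lc

open SimpleGraph

lemma petersen_connected : petersen.Connected := by
  rw [connected_iff_exists_forall_reachable]
  have a : ∀ u v : Fin 10, petersen.Adj u v → petersen.Reachable u v := fun _ _ h => h.reachable
  have h1 := a 0 1 (by decide)
  have h4 := a 0 4 (by decide)
  have h5 := a 0 5 (by decide)
  refine ⟨0, fun v => ?_⟩
  fin_cases v
  exacts [Reachable.refl _, h1, h1.trans (a 1 2 (by decide)), h4.trans (a 4 3 (by decide)), h4, h5,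
    h1.trans (a 1 6 (by decide)), h5.trans (a 5 7 (by decide)), h5.trans (a 5 8 (by decide)),
    h4.trans (a 4 9 (by decide))]

def nbrs : Fin 10 → List (Fin 10) :=
  ![[1, 4, 5], [0, 2, 6], [1, 3, 7], [2, 4, 8], [0, 3, 9], [0, 7, 8], [1, 8, 9], [2, 5, 9],
    [3, 5, 6], [4, 6, 7]]

lemma mem_nbrs : ∀ u v, petersen.Adj u v → v ∈ nbrs u := by decide +kernel

def noWalk (start : Fin 10) : ℕ → List (Fin 10) → Fin 10 → Bool
  | 0, _, cur => cur != start
  | k + 1, vis, cur => (nbrs cur).all fun w => vis.contains w || noWalk start k (w :: vis) w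

lemma noWalk_spec (start : Fin 10) : ∀ (cur : Fin 10) (p : petersen.Walk cur start)
    (vis : List (Fin 10)), p.support.tail.Nodup → (∀ w ∈ p.support.tail, w ∉ vis) →
    noWalk start p.length vis cur = false := by
  intro cur p
  induction p with
  | nil => intro vis _ _; simp [noWalk]
  | @cons u v t h p ih =>
    intro vis h1 h2
    simp only [Walk.support_cons, List.tail_cons] at h1 h2
    rw [← Walk.cons_tail_support] at h1 h2
    simp only [List.nodup_cons] at h1
    have h3 := ih (v :: vis) h1.2 (by
      intro w hw hw'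
      rcases List.mem_cons.1 hw' with rfl | hw'
      · exact h1.1 hw
      · exact h2 w (List.mem_cons_of_mem _ hw) hw')
    simp only [Walk.length_cons, noWalk, List.all_eq_false]
    refine ⟨v, mem_nbrs _ _ h, ?_⟩
    have h4 : v ∉ vis := h2 v (by simp)
    simp [h3, h4]

lemma noWalk_all : ((List.finRange 10).all fun a => noWalk a 10 [] a) = true := by
  decide +kernel

lemma petersen_not_ham : ¬ petersen.IsHamiltonian := by
  intro h
  obtain ⟨a, p, hp⟩ := h (by simp)
  have h1 := noWalk_spec a a p [] hp.isCycle.support_nodup (by simp)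
  have h2 : p.length = 10 := by simpa using hp.length_eq
  have h3 := List.all_eq_true.1 noWalk_all a (by simp)
  rw [h2, h3] at h1
  exact absurd h1 (by simp)

end Pool.Agent.MP_76d60e_lc
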