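import Pool.Agent.MP_76d60e_lc.Labels
import Pool.Agent.MP_76d60e_lc.Lower
import Pool.Agent.MP_76d60e_lc.Petersen

set_option autoImplicit false

namespace Pool.Agent.MP_76d60e_lc

open Filter Topology

lemma bounds (static allKnow : Bool) (n : ℕ) :
    5 * n ≤ minBits petersen static allKnow n + 200 * Nat.sqrt n + 20 ∧
    minBits petersen static allKnow n ≤ 5 * n + 390 * Nat.sqrt n + 2508 := by
  have ha1 := Nat.sqrt_le' (n / 3)
  have ha2 := Nat.lt_succ_sqrt' (n / 3)
  have ha3 : Nat.sqrt (n / 3) ≤ Nat.sqrt n := Nat.sqrt_le_sqrt (Nat.div_le_self _ _)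
  generalize Nat.sqrt (n / 3) = a at ha1 ha2 ha3
  have hd1 : 3 * (n / 3) ≤ n := Nat.mul_div_le n 3
  have hd2 : n < 3 * (n / 3) + 3 := by omega
  obtain ⟨P, hP1, hP2⟩ := upper_protocol n (a + 11) (by
    simp only [Nat.succ_eq_add_one] at ha2
    nlinarith)
  have hmem : 15 * ((a + 11) * (a + 11 + 4)) + 33 ∈ {cost : ℕ |
      ∃ P : Fin 10 → (Fin n → Bool) → Program (Fin 10),
      (static = true → ∃ pattern : Fin 10 → List (Bool × Fin 10),
        ∀ v s, Follows (P v s) (pattern v)) ∧
      ∀ x : Fin 10 → Fin n → Bool,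
        (∃ c out, Run petersen (fun v => P v (x v)) (fun _ => []) c out) ∧
        ∀ c out, Run petersen (fun v => P v (x v)) (fun _ => []) c out →
          c ≤ cost ∧
          if allKnow then ∀ v, (out v = true ↔ ∀ u w, x u = x w)
          else ((∀ v, out v = true) ↔ ∀ u w, x u = x w)} := by
    refine ⟨P, fun _ => hP1, fun x => ⟨(hP2 x).1, fun c out h => ?_⟩⟩
    obtain ⟨h1, h2⟩ := (hP2 x).2 c out h
    refine ⟨h1, ?_⟩
    cases allKnow
    · simp only [Bool.false_eq_true, if_false]
      exact ⟨fun h3 => (h2 0).1 (h3 0), fun h3 v => (h2 v).2 h3⟩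
    · simpa using h2
  constructor
  · obtain ⟨Q, -, hQ⟩ := Nat.sInf_mem ⟨_, hmem⟩
    have hr := Nat.lt_succ_sqrt' n
    generalize Nat.sqrt n = r at hr
    by_cases hn : n < 40 * r + 4
    · omega
    have hlow := lower_bound petersen n (minBits petersen static allKnow n) (n - 40 * r - 4) Q
      (by
        intro x
        refine ⟨(hQ x).1, fun c out h => ?_⟩
        obtain ⟨h1, h2⟩ := (hQ x).2 c out h
        refine ⟨h1, ?_⟩
        cases allKnow
        · simpa using h2
        · simp only [if_true] at h2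
          exact ⟨fun h3 => (h2 0).1 (h3 0), fun h3 v => (h2 v).2 h3⟩)
      (by
        simp only [Fintype.card_fin]
        have h1 : r + 1 ≤ 2 ^ r := Nat.lt_two_pow_self
        have h2 : n - 40 * r - 4 + 1 ≤ (2 ^ r) ^ 2 := by
          have := Nat.pow_le_pow_left h1 2
          simp only [Nat.succ_eq_add_one] at hr
          omega
        have h3 := Nat.pow_le_pow_left h2 (2 * 10)
        have h4 : 2 ^ n = 16 * (((2 ^ r) ^ 2) ^ (2 * 10) * 2 ^ (n - 40 * r - 4)) := by
          have : n = 4 + (r * 2 * (2 * 10) + (n - 40 * r - 4)) := by omega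
          rw [← pow_mul, ← pow_mul, ← pow_add, show (16 : ℕ) = 2 ^ 4 by norm_num, ← pow_add]
          congr 1
          omega
        have h5 := Nat.mul_le_mul_right (2 ^ (n - 40 * r - 4)) h3
        have h6 : 0 < ((2 ^ r) ^ 2) ^ (2 * 10) * 2 ^ (n - 40 * r - 4) := by positivity
        omega)
    simp only [Fintype.card_fin] at hlow
    omega
  · have h1 : minBits petersen static allKnow n ≤ _ := Nat.sInf_le hmem
    nlinarith

lemma tendsto_sqrt_div : Tendsto (fun n : ℕ => (Nat.sqrt n : ℝ) / n) atTop (𝓝 0) := by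
  have h : Tendsto (fun n : ℕ => (√(n : ℝ))⁻¹) atTop (𝓝 0) :=
    tendsto_inv_atTop_zero.comp (Real.tendsto_sqrt_atTop.comp tendsto_natCast_atTop_atTop)
  refine squeeze_zero (fun n => by positivity) (fun n => ?_) h
  rw [← Real.sqrt_div_self]
  exact div_le_div_of_nonneg_right Real.nat_sqrt_le_real_sqrt (by positivity)

lemma tendsto_minBits (static allKnow : Bool) :
    Tendsto (fun n : ℕ => (minBits petersen static allKnow n : ℝ) / n) atTop
      (𝓝 ((10 : ℝ) / 2)) := by
  have h0 : Tendsto (fun n : ℕ => (1 : ℝ) / n) atTop (𝓝 0) := tendsto_one_div_atTop_nhds_zero_nat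
  have hl : Tendsto (fun n : ℕ => (5 : ℝ) - 200 * ((Nat.sqrt n : ℝ) / n) - 20 * (1 / n)) atTop
      (𝓝 ((10 : ℝ) / 2)) := by
    have := ((tendsto_const_nhds (x := (5 : ℝ))).sub (tendsto_sqrt_div.const_mul 200)).sub
      (h0.const_mul 20)
    convert this using 2
    norm_num
  have hu : Tendsto (fun n : ℕ => (5 : ℝ) + 390 * ((Nat.sqrt n : ℝ) / n) + 2508 * (1 / n)) atTop
      (𝓝 ((10 : ℝ) / 2)) := by
    have := ((tendsto_const_nhds (x := (5 : ℝ))).add (tendsto_sqrt_div.const_mul 390)).add
      (h0.const_mul 2508)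
    convert this using 2
    norm_num
  refine tendsto_of_tendsto_of_tendsto_of_le_of_le' hl hu ?_ ?_
  · filter_upwards [eventually_gt_atTop 0] with n hn
    have hn' : (0 : ℝ) < n := by exact_mod_cast hn
    have h1 : (5 : ℝ) * n ≤ minBits petersen static allKnow n + 200 * Nat.sqrt n + 20 := by
      exact_mod_cast (bounds static allKnow n).1
    rw [le_div_iff₀ hn']
    field_simp
    linarith
  · filter_upwards [eventually_gt_atTop 0] with n hn
    have hn' : (0 : ℝ) < n := by exact_mod_cast hn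
    have h1 : (minBits petersen static allKnow n : ℝ) ≤ 5 * n + 390 * Nat.sqrt n + 2508 := by
      exact_mod_cast (bounds static allKnow n).2
    rw [div_le_iff₀ hn']
    field_simp
    linarith

end Pool.Agent.MP_76d60e_lc
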