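import Mathlib

set_option autoImplicit false

namespace Pool.Agent.MP_76d60e_lc

def Aform (t1 t2 t3 t6 t7 t8 t9 t10 t11 t12 t13 t14 : ℚ) : ℚ :=
  (72 : ℚ) * t1 ^ 2 + (72 : ℚ) * t2 ^ 2 + (13 : ℚ) * t3 ^ 2 + (84 : ℚ) * t6 ^ 2 + (62 : ℚ) * t7 ^ 2 + (44 : ℚ) * t8 ^ 2 + (20 : ℚ) * t9 ^ 2 + (46 : ℚ) * t10 ^ 2 + (14 : ℚ) * t11 ^ 2 + (6 : ℚ) * t12 ^ 2 + (55 : ℚ) * t13 ^ 2 + (28 : ℚ) * t14 ^ 2 + (-24 : ℚ) * (t1 * t2) + (-84 : ℚ) * (t1 * t6) + (-60 : ℚ) * (t1 * t7) + (32 : ℚ) * (t2 * t3) + (-32 : ℚ) * (t2 * t7) + (-88 : ℚ) * (t2 * t8) + (-22 : ℚ) * (t3 * t8) + (20 : ℚ) * (t3 * t9) + (-84 : ℚ) * (t6 * t13) + (28 : ℚ) * (t7 * t10) + (-18 : ℚ) * (t7 * t11) + (44 : ℚ) * (t8 * t13) + (22 : ℚ) * (t8 * t14) + (16 : ℚ) * (t9 * t11) + (8 : ℚ) * (t9 * t12) + (2 : ℚ) * (t10 * t11) + (60 : ℚ) * (t10 * t14) + (-2 : ℚ) * (t11 * t12)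 + (-4 : ℚ) * (t12 * t13) + (26 : ℚ) * (t13 * t14)

lemma Aform_pd (t1 t2 t3 t6 t7 t8 t9 t10 t11 t12 t13 t14 : ℚ) :
    (1 / 50 : ℚ) * (t1 ^ 2 + t2 ^ 2 + t3 ^ 2 + t6 ^ 2 + t7 ^ 2 + t8 ^ 2 + t9 ^ 2 + t10 ^ 2 + t11 ^ 2 + t12 ^ 2 + t13 ^ 2 + t14 ^ 2) ≤ Aform t1 t2 t3 t6 t7 t8 t9 t10 t11 t12 t13 t14 := by
  have h1 : Aform t1 t2 t3 t6 t7 t8 t9 t10 t11 t12 t13 t14 - (1 / 50 : ℚ) * (t1 ^ 2 + t2 ^ 2 + t3 ^ 2 + t6 ^ 2 + t7 ^ 2 + t8 ^ 2 + t9 ^ 2 + t10 ^ 2 + t11 ^ 2 + t12 ^ 2 + t13 ^ 2 + t14 ^ 2) =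
      (3599 / 50 : ℚ) * (t1 + (-600 / 3599 : ℚ) * t2 + (-2100 / 3599 : ℚ) * t6 + (-1500 / 3599 : ℚ) * t7) ^ 2 +
      (12592801 / 179950 : ℚ) * (t2 + (2879200 / 12592801 : ℚ) * t3 + (-1260000 / 12592801 : ℚ) * t6 + (-3779200 / 12592801 : ℚ) * t7 + (-7917800 / 12592801 : ℚ) * t8) ^ 2 +
      (5869367849 / 629640050 : ℚ) * (t3 + (1008000000 / 5869367849 : ℚ) * t6 + (3023360000 / 5869367849 : ℚ) * t7 + (-591800550 / 5869367849 : ℚ) * t8 + (6296400500 / 5869367849 : ℚ) * t9) ^ 2 +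
      (17167213687951 / 293468392450 : ℚ) * (t6 + (-5995807650000 / 17167213687951 : ℚ) * t7 + (-1244628000000 / 17167213687951 : ℚ) * t8 + (-504000000000 / 17167213687951 : ℚ) * t9 + (-12325672482900 / 17167213687951 : ℚ) * t13) ^ 2 +
      (28810680061350149 / 858360684397550 : ℚ) * (t7 + (-12190302298240000 / 28810680061350149 : ℚ) * t8 + (-4936344320000000 / 28810680061350149 : ℚ) * t9 + (12017049581565700 / 28810680061350149 : ℚ) * t10 + (-7725246159577950 / 28810680061350149 : ℚ) * t11 + (-12591196065000000 / 28810680061350149 : ℚ) * t13) ^ 2 +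
      (14266236132956085151 / 1440534003067507450 : ℚ) * (t8 + (-2232150528107225000 / 14266236132956085151 : ℚ) * t9 + (8533211608768000000 / 14266236132956085151 : ℚ) * t10 + (-5485636034208000000 / 14266236132956085151 : ℚ) * t11 + (18364395906285163900 / 14266236132956085151 : ℚ) * t13 + (15845874033742581950 / 14266236132956085151 : ℚ) * t14) ^ 2 +
      (5688112427553954315849 / 713311806647804257550 : ℚ) * (t9 + (2372160262976000000000 / 5688112427553954315849 : ℚ) * t10 + (4181534284126434060400 / 5688112427553954315849 : ℚ) * t11 + (2853247226591217030200 / 5688112427553954315849 : ℚ) * t12 + (-1249524987482052500000 / 5688112427553954315849 : ℚ) * t13 + (1227682790458973750000 / 5688112427553954315849 : ℚ) * t14) ^ 2 +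
      (10014060754811785369146851 / 284405621377697715792450 : ℚ) * (t10 + (1304554905131069174857450 / 10014060754811785369146851 : ℚ) * t11 + (-474432052595200000000000 / 10014060754811785369146851 : ℚ) * t12 + (-220784320144759700000000 / 10014060754811785369146851 : ℚ) * t13 + (6456772797293353873773500 / 10014060754811785369146851 : ℚ) * t14) ^ 2 +
      (2601384714509671668171263849 / 500703037740589268457342550 : ℚ) * (t11 + (-1864231820149851088629262550 / 2601384714509671668171263849 : ℚ) * t12 + (1180440165942396532050000000 / 2601384714509671668171263849 : ℚ) * t13 + (3470290417099151613825000 / 2601384714509671668171263849 : ℚ) * t14) ^ 2 +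
      (159507274716820879051262723351 / 130069235725483583408563192450 : ℚ) * (t12 + (69121023585192538195873615100 / 159507274716820879051262723351 : ℚ) * t13 + (28252418902019803679941250000 / 159507274716820879051262723351 : ℚ) * t14) ^ 2 +
      (2406298882520286860463229621899 / 7975363735841043952563136167550 : ℚ) * (t13 + (-3019048838862414670574133966850 / 2406298882520286860463229621899 : ℚ) * t14) ^ 2 +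
      (28766599336723923414385476686701 / 120314944126014343023161481094950 : ℚ) * (t14) ^ 2 := by
    unfold Aform
    ring
  have h2 : 0 ≤
      (3599 / 50 : ℚ) * (t1 + (-600 / 3599 : ℚ) * t2 + (-2100 / 3599 : ℚ) * t6 + (-1500 / 3599 : ℚ) * t7) ^ 2 +
      (12592801 / 179950 : ℚ) * (t2 + (2879200 / 12592801 : ℚ) * t3 + (-1260000 / 12592801 : ℚ) * t6 + (-3779200 / 12592801 : ℚ) * t7 + (-7917800 / 12592801 : ℚ) * t8) ^ 2 +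
      (5869367849 / 629640050 : ℚ) * (t3 + (1008000000 / 5869367849 : ℚ) * t6 + (3023360000 / 5869367849 : ℚ) * t7 + (-591800550 / 5869367849 : ℚ) * t8 + (6296400500 / 5869367849 : ℚ) * t9) ^ 2 +
      (17167213687951 / 293468392450 : ℚ) * (t6 + (-5995807650000 / 17167213687951 : ℚ) * t7 + (-1244628000000 / 17167213687951 : ℚ) * t8 + (-504000000000 / 17167213687951 : ℚ) * t9 + (-12325672482900 / 17167213687951 : ℚ) * t13) ^ 2 +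
      (28810680061350149 / 858360684397550 : ℚ) * (t7 + (-12190302298240000 / 28810680061350149 : ℚ) * t8 + (-4936344320000000 / 28810680061350149 : ℚ) * t9 + (12017049581565700 / 28810680061350149 : ℚ) * t10 + (-7725246159577950 / 28810680061350149 : ℚ) * t11 + (-12591196065000000 / 28810680061350149 : ℚ) * t13) ^ 2 +
      (14266236132956085151 / 1440534003067507450 : ℚ) * (t8 + (-2232150528107225000 / 14266236132956085151 : ℚ) * t9 + (8533211608768000000 / 14266236132956085151 : ℚ) * t10 + (-5485636034208000000 / 14266236132956085151 : ℚ) * t11 + (18364395906285163900 / 14266236132956085151 : ℚ) * t13 + (15845874033742581950 / 14266236132956085151 : ℚ) * t14) ^ 2 +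
      (5688112427553954315849 / 713311806647804257550 : ℚ) * (t9 + (2372160262976000000000 / 5688112427553954315849 : ℚ) * t10 + (4181534284126434060400 / 5688112427553954315849 : ℚ) * t11 + (2853247226591217030200 / 5688112427553954315849 : ℚ) * t12 + (-1249524987482052500000 / 5688112427553954315849 : ℚ) * t13 + (1227682790458973750000 / 5688112427553954315849 : ℚ) * t14) ^ 2 +
      (10014060754811785369146851 / 284405621377697715792450 : ℚ) * (t10 + (1304554905131069174857450 / 10014060754811785369146851 : ℚ) * t11 + (-474432052595200000000000 / 10014060754811785369146851 : ℚ) * t12 + (-220784320144759700000000 / 10014060754811785369146851 : ℚ) * t13 + (6456772797293353873773500 / 10014060754811785369146851 : ℚ) * t14) ^ 2 +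
      (2601384714509671668171263849 / 500703037740589268457342550 : ℚ) * (t11 + (-1864231820149851088629262550 / 2601384714509671668171263849 : ℚ) * t12 + (1180440165942396532050000000 / 2601384714509671668171263849 : ℚ) * t13 + (3470290417099151613825000 / 2601384714509671668171263849 : ℚ) * t14) ^ 2 +
      (159507274716820879051262723351 / 130069235725483583408563192450 : ℚ) * (t12 + (69121023585192538195873615100 / 159507274716820879051262723351 : ℚ) * t13 + (28252418902019803679941250000 / 159507274716820879051262723351 : ℚ) * t14) ^ 2 +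
      (2406298882520286860463229621899 / 7975363735841043952563136167550 : ℚ) * (t13 + (-3019048838862414670574133966850 / 2406298882520286860463229621899 : ℚ) * t14) ^ 2 +
      (28766599336723923414385476686701 / 120314944126014343023161481094950 : ℚ) * (t14) ^ 2 := by
    positivity
  linarith

def qd (c1 c2 c3 c4 c5 c6 : ℚ) (z : Fin 3 → ℚ) : ℚ :=
  c1 * (z 0 * z 0) + c2 * (z 1 * z 1) + c3 * (z 2 * z 2) + c4 * (z 0 * z 1) + c5 * (z 0 * z 2) +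
    c6 * (z 1 * z 2)

lemma sum_qd {s : ℕ} (c1 c2 c3 c4 c5 c6 : ℚ) (z : Fin s → Fin 3 → ℚ) (C : Fin 3 → Fin 3 → ℚ)
    (h : ∀ a b, ∑ j, z j a * z j b = C a b) :
    ∑ j, qd c1 c2 c3 c4 c5 c6 (z j) =
      c1 * C 0 0 + c2 * C 1 1 + c3 * C 2 2 + c4 * C 0 1 + c5 * C 0 2 + c6 * C 1 2 := by
  simp only [qd, Finset.sum_add_distrib, ← Finset.mul_sum, h]

def Qtot (z : Fin 10 → Fin 3 → ℚ) : ℚ :=
  qd (36) (74) (16) (36) (0) (-16) (z 0) +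
    qd (216) (72) (84) (252) (168) (84) (z 1) +
    qd (-66) (2) (102) (-112) (-36) (-8) (z 2) +
    qd (-12) (35) (28) (64) (192) (84) (z 3) +
    qd (-20) (-28) (0) (-56) (-40) (-104) (z 4) +
    qd (-74) (-14) (-88) (88) (-176) (72) (z 5) +
    qd (-116) (-37) (60) (-132) (-56) (-44) (z 6) +
    qd (28) (-12) (-44) (-32) (60) (56) (z 7) +
    qd (8) (-12) (-80) (-156) (-72) (-288) (z 8) +
    qd (0) (-80) (-78) (48) (-40) (164) (z 9)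

lemma sum_Qtot {s : ℕ} (z : Fin 10 → Fin s → Fin 3 → ℚ) (C : Fin 3 → Fin 3 → ℚ)
    (h : ∀ v a b, ∑ j, z v j a * z v j b = C a b) :
    ∑ j, Qtot (fun v => z v j) = 0 := by
  simp only [Qtot, Finset.sum_add_distrib]
  simp only [fun v c1 c2 c3 c4 c5 c6 => sum_qd c1 c2 c3 c4 c5 c6 (z v) C (h v)]
  ring

lemma coord (z : Fin 10 → Fin 3 → ℚ)
    (h0 : ((1 : ℚ) * z 0 0 + (0 : ℚ) * z 0 1 + (0 : ℚ) * z 0 2) = ((1 : ℚ) * z 1 0 + (0 : ℚ) * z 1 1 + (0 : ℚ) * z 1 2))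
    (h1 : ((-2 : ℚ) * z 1 0 + (-1 : ℚ) * z 1 1 + (0 : ℚ) * z 1 2) = ((-2 : ℚ) * z 2 0 + (-1 : ℚ) * z 2 1 + (0 : ℚ) * z 2 2))
    (h2 : ((-1 : ℚ) * z 2 0 + (0 : ℚ) * z 2 1 + (1 : ℚ) * z 2 2) = ((-1 : ℚ) * z 3 0 + (0 : ℚ) * z 3 1 + (1 : ℚ) * z 3 2))
    (h3 : ((2 : ℚ) * z 3 0 + (1 : ℚ) * z 3 1 + (2 : ℚ) * z 3 2) = ((2 : ℚ) * z 4 0 + (1 : ℚ) * z 4 1 + (2 : ℚ) * z 4 2))
    (h4 : ((0 : ℚ) * z 0 0 + (1 : ℚ) * z 0 1 + (0 : ℚ) * z 0 2) = ((0 : ℚ) * z 4 0 + (1 : ℚ) * z 4 1 + (0 : ℚ) * z 4 2))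
    (h5 : ((0 : ℚ) * z 0 0 + (0 : ℚ) * z 0 1 + (1 : ℚ) * z 0 2) = ((0 : ℚ) * z 5 0 + (0 : ℚ) * z 5 1 + (1 : ℚ) * z 5 2))
    (h6 : ((-2 : ℚ) * z 1 0 + (-1 : ℚ) * z 1 1 + (-1 : ℚ) * z 1 2) = ((-2 : ℚ) * z 6 0 + (-1 : ℚ) * z 6 1 + (-1 : ℚ) * z 6 2))
    (h7 : ((-1 : ℚ) * z 2 0 + (-1 : ℚ) * z 2 1 + (1 : ℚ) * z 2 2) = ((-1 : ℚ) * z 7 0 + (-1 : ℚ) * z 7 1 + (1 : ℚ) * z 7 2))
    (h8 : ((0 : ℚ) * z 3 0 + (1 : ℚ) * z 3 1 + (2 : ℚ) * z 3 2) = ((0 : ℚ) * z 8 0 + (1 : ℚ) * z 8 1 + (2 : ℚ) * z 8 2))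
    (h9 : ((-1 : ℚ) * z 4 0 + (2 : ℚ) * z 4 1 + (-2 : ℚ) * z 4 2) = ((-1 : ℚ) * z 9 0 + (2 : ℚ) * z 9 1 + (-2 : ℚ) * z 9 2))
    (h10 : ((-1 : ℚ) * z 5 0 + (1 : ℚ) * z 5 1 + (-2 : ℚ) * z 5 2) = ((-1 : ℚ) * z 7 0 + (1 : ℚ) * z 7 1 + (-2 : ℚ) * z 7 2))
    (h11 : ((0 : ℚ) * z 7 0 + (-2 : ℚ) * z 7 1 + (2 : ℚ) * z 7 2) = ((0 : ℚ) * z 9 0 + (-2 : ℚ) * z 9 1 + (2 : ℚ) * z 9 2))
    (h12 : ((0 : ℚ) * z 9 0 + (-2 : ℚ) * z 9 1 + (1 : ℚ) * z 9 2) = ((0 : ℚ) * z 6 0 + (-2 : ℚ) * z 6 1 + (1 : ℚ) * z 6 2))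
    (h13 : ((-2 : ℚ) * z 6 0 + (-1 : ℚ) * z 6 1 + (-2 : ℚ) * z 6 2) = ((-2 : ℚ) * z 8 0 + (-1 : ℚ) * z 8 1 + (-2 : ℚ) * z 8 2))
    (h14 : ((2 : ℚ) * z 8 0 + (-1 : ℚ) * z 8 1 + (2 : ℚ) * z 8 2) = ((2 : ℚ) * z 5 0 + (-1 : ℚ) * z 5 1 + (2 : ℚ) * z 5 2))
    : 0 ≤ Qtot z ∧ (Qtot z = 0 → ∀ v, z v = z 0) := by
  obtain ⟨t1, g1⟩ : ∃ t, t = ((-2 : ℚ) * z 1 0 + (-1 : ℚ) * z 1 1 + (0 : ℚ) * z 1 2) - ((-2 : ℚ) * z 0 0 + (-1 : ℚ) * z 0 1 + (0 : ℚ) * z 0 2) := ⟨_, rfl⟩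
  obtain ⟨t2, g2⟩ : ∃ t, t = ((-1 : ℚ) * z 2 0 + (0 : ℚ) * z 2 1 + (1 : ℚ) * z 2 2) - ((-1 : ℚ) * z 0 0 + (0 : ℚ) * z 0 1 + (1 : ℚ) * z 0 2) := ⟨_, rfl⟩
  obtain ⟨t3, g3⟩ : ∃ t, t = ((2 : ℚ) * z 3 0 + (1 : ℚ) * z 3 1 + (2 : ℚ) * z 3 2) - ((2 : ℚ) * z 0 0 + (1 : ℚ) * z 0 1 + (2 : ℚ) * z 0 2) := ⟨_, rfl⟩
  obtain ⟨t6, g6⟩ : ∃ t, t = ((-2 : ℚ) * z 1 0 + (-1 : ℚ) * z 1 1 + (-1 : ℚ) * z 1 2) - ((-2 : ℚ) * z 0 0 + (-1 : ℚ) * z 0 1 + (-1 : ℚ) * z 0 2) := ⟨_, rfl⟩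
  obtain ⟨t7, g7⟩ : ∃ t, t = ((-1 : ℚ) * z 2 0 + (-1 : ℚ) * z 2 1 + (1 : ℚ) * z 2 2) - ((-1 : ℚ) * z 0 0 + (-1 : ℚ) * z 0 1 + (1 : ℚ) * z 0 2) := ⟨_, rfl⟩
  obtain ⟨t8, g8⟩ : ∃ t, t = ((0 : ℚ) * z 3 0 + (1 : ℚ) * z 3 1 + (2 : ℚ) * z 3 2) - ((0 : ℚ) * z 0 0 + (1 : ℚ) * z 0 1 + (2 : ℚ) * z 0 2) := ⟨_, rfl⟩
  obtain ⟨t9, g9⟩ : ∃ t, t = ((-1 : ℚ) * z 4 0 + (2 : ℚ) * z 4 1 + (-2 : ℚ) * z 4 2) - ((-1 : ℚ) * z 0 0 + (2 : ℚ) * z 0 1 + (-2 : ℚ) * z 0 2) := ⟨_, rfl⟩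
  obtain ⟨t10, g10⟩ : ∃ t, t = ((-1 : ℚ) * z 5 0 + (1 : ℚ) * z 5 1 + (-2 : ℚ) * z 5 2) - ((-1 : ℚ) * z 0 0 + (1 : ℚ) * z 0 1 + (-2 : ℚ) * z 0 2) := ⟨_, rfl⟩
  obtain ⟨t11, g11⟩ : ∃ t, t = ((0 : ℚ) * z 7 0 + (-2 : ℚ) * z 7 1 + (2 : ℚ) * z 7 2) - ((0 : ℚ) * z 0 0 + (-2 : ℚ) * z 0 1 + (2 : ℚ) * z 0 2) := ⟨_, rfl⟩
  obtain ⟨t12, g12⟩ : ∃ t, t = ((0 : ℚ) * z 9 0 + (-2 : ℚ) * z 9 1 + (1 : ℚ) * z 9 2) - ((0 : ℚ) * z 0 0 + (-2 : ℚ) * z 0 1 + (1 : ℚ) * z 0 2) := ⟨_, rfl⟩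
  obtain ⟨t13, g13⟩ : ∃ t, t = ((-2 : ℚ) * z 6 0 + (-1 : ℚ) * z 6 1 + (-2 : ℚ) * z 6 2) - ((-2 : ℚ) * z 0 0 + (-1 : ℚ) * z 0 1 + (-2 : ℚ) * z 0 2) := ⟨_, rfl⟩
  obtain ⟨t14, g14⟩ : ∃ t, t = ((2 : ℚ) * z 8 0 + (-1 : ℚ) * z 8 1 + (2 : ℚ) * z 8 2) - ((2 : ℚ) * z 0 0 + (-1 : ℚ) * z 0 1 + (2 : ℚ) * z 0 2) := ⟨_, rfl⟩
  have e1 : Qtot z = Aform t1 t2 t3 t6 t7 t8 t9 t10 t11 t12 t13 t14 := by
    rw [g1, g2, g3, g6, g7, g8, g9, g10, g11, g12, g13, g14]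
    unfold Qtot Aform qd
    linear_combination
      ((-36 : ℚ) * ((-2 : ℚ) * z 1 0 + (-1 : ℚ) * z 1 1 + (0 : ℚ) * z 1 2)) * h0 +
      ((24 : ℚ) * ((-1 : ℚ) * z 2 0 + (0 : ℚ) * z 2 1 + (1 : ℚ) * z 2 2) + (60 : ℚ) * ((-1 : ℚ) * z 2 0 + (-1 : ℚ) * z 2 1 + (1 : ℚ) * z 2 2)) * h1 +
      ((-32 : ℚ) * ((2 : ℚ) * z 3 0 + (1 : ℚ) * z 3 1 + (2 : ℚ) * z 3 2) + (88 : ℚ) * ((0 : ℚ) * z 3 0 + (1 : ℚ) * z 3 1 + (2 : ℚ) * z 3 2)) * h2 +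
      ((44 : ℚ) * ((0 : ℚ) * z 4 0 + (1 : ℚ) * z 4 1 + (0 : ℚ) * z 4 2) + (-20 : ℚ) * ((-1 : ℚ) * z 4 0 + (2 : ℚ) * z 4 1 + (-2 : ℚ) * z 4 2)) * h3 +
      ((44 : ℚ) * ((2 : ℚ) * z 3 0 + (1 : ℚ) * z 3 1 + (2 : ℚ) * z 3 2) + (52 : ℚ) * ((-1 : ℚ) * z 4 0 + (2 : ℚ) * z 4 1 + (-2 : ℚ) * z 4 2)) * h4 +
      ((-32 : ℚ) * ((-1 : ℚ) * z 5 0 + (1 : ℚ) * z 5 1 + (-2 : ℚ) * z 5 2) + (-16 : ℚ) * ((2 : ℚ) * z 5 0 + (-1 : ℚ) * z 5 1 + (2 : ℚ) * z 5 2)) * h5 +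
      ((84 : ℚ) * ((-2 : ℚ) * z 6 0 + (-1 : ℚ) * z 6 1 + (-2 : ℚ) * z 6 2)) * h6 +
      ((-28 : ℚ) * ((-1 : ℚ) * z 7 0 + (1 : ℚ) * z 7 1 + (-2 : ℚ) * z 7 2) + (18 : ℚ) * ((0 : ℚ) * z 7 0 + (-2 : ℚ) * z 7 1 + (2 : ℚ) * z 7 2)) * h7 +
      ((-44 : ℚ) * ((-2 : ℚ) * z 8 0 + (-1 : ℚ) * z 8 1 + (-2 : ℚ) * z 8 2) + (-22 : ℚ) * ((2 : ℚ) * z 8 0 + (-1 : ℚ) * z 8 1 + (2 : ℚ) * z 8 2)) * h8 +
      ((-16 : ℚ) * ((0 : ℚ) * z 9 0 + (-2 : ℚ) * z 9 1 + (2 : ℚ) * z 9 2) + (-8 : ℚ) * ((0 : ℚ) * z 9 0 + (-2 : ℚ) * z 9 1 + (1 : ℚ) * z 9 2)) * h9 +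
      ((-28 : ℚ) * ((-1 : ℚ) * z 2 0 + (-1 : ℚ) * z 2 1 + (1 : ℚ) * z 2 2) + (-2 : ℚ) * ((0 : ℚ) * z 7 0 + (-2 : ℚ) * z 7 1 + (2 : ℚ) * z 7 2)) * h10 +
      ((-16 : ℚ) * ((-1 : ℚ) * z 4 0 + (2 : ℚ) * z 4 1 + (-2 : ℚ) * z 4 2) + (2 : ℚ) * ((0 : ℚ) * z 9 0 + (-2 : ℚ) * z 9 1 + (1 : ℚ) * z 9 2)) * h11 +
      ((4 : ℚ) * ((-2 : ℚ) * z 6 0 + (-1 : ℚ) * z 6 1 + (-2 : ℚ) * z 6 2)) * h12 +
      ((-44 : ℚ) * ((0 : ℚ) * z 3 0 + (1 : ℚ) * z 3 1 + (2 : ℚ) * z 3 2) + (-26 : ℚ) * ((2 : ℚ) * z 8 0 + (-1 : ℚ) * z 8 1 + (2 : ℚ) * z 8 2)) * h13 +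
      ((-16 : ℚ) * ((0 : ℚ) * z 0 0 + (0 : ℚ) * z 0 1 + (1 : ℚ) * z 0 2) + (-60 : ℚ) * ((-1 : ℚ) * z 5 0 + (1 : ℚ) * z 5 1 + (-2 : ℚ) * z 5 2)) * h14
  have e2 := Aform_pd t1 t2 t3 t6 t7 t8 t9 t10 t11 t12 t13 t14
  have s1 := sq_nonneg t1
  have s2 := sq_nonneg t2
  have s3 := sq_nonneg t3
  have s6 := sq_nonneg t6
  have s7 := sq_nonneg t7
  have s8 := sq_nonneg t8
  have s9 := sq_nonneg t9
  have s10 := sq_nonneg t10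
  have s11 := sq_nonneg t11
  have s12 := sq_nonneg t12
  have s13 := sq_nonneg t13
  have s14 := sq_nonneg t14
  refine ⟨by linarith, fun hz => ?_⟩
  have z1 : t1 = 0 := pow_eq_zero_iff (two_ne_zero) |>.1 (by linarith)
  have z2 : t2 = 0 := pow_eq_zero_iff (two_ne_zero) |>.1 (by linarith)
  have z3 : t3 = 0 := pow_eq_zero_iff (two_ne_zero) |>.1 (by linarith)
  have z6 : t6 = 0 := pow_eq_zero_iff (two_ne_zero) |>.1 (by linarith)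
  have z7 : t7 = 0 := pow_eq_zero_iff (two_ne_zero) |>.1 (by linarith)
  have z8 : t8 = 0 := pow_eq_zero_iff (two_ne_zero) |>.1 (by linarith)
  have z9 : t9 = 0 := pow_eq_zero_iff (two_ne_zero) |>.1 (by linarith)
  have z10 : t10 = 0 := pow_eq_zero_iff (two_ne_zero) |>.1 (by linarith)
  have z11 : t11 = 0 := pow_eq_zero_iff (two_ne_zero) |>.1 (by linarith)
  have z12 : t12 = 0 := pow_eq_zero_iff (two_ne_zero) |>.1 (by linarith)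
  have z13 : t13 = 0 := pow_eq_zero_iff (two_ne_zero) |>.1 (by linarith)
  have z14 : t14 = 0 := pow_eq_zero_iff (two_ne_zero) |>.1 (by linarith)
  intro v
  funext a
  fin_cases v <;> fin_cases a <;> simp only [Fin.reduceFinMk, Fin.zero_eta, Fin.mk_one, Fin.isValue] <;> linarith

end Pool.Agent.MP_76d60e_lc
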